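import Pool.Agent.H43.G.R_pool_sql_team_seeded_3997aac3.Q240.KT.Stm
import Pool.Agent.H43.G.R_pool_sql_team_seeded_3997aac3.Q14.KS.Smo

set_option autoImplicit false

/-!
# Project KT (helper240), job PSN (helper38): Poisson's formula for a smooth factor, main terms kept
-/

namespace Pool.Agent.Q38.KT

open Finset Pool.Agent.H376R2.MR Pool.Agent.Q240.KS Pool.Agent.Q240.KT MeasureTheory
open Pool.Agent.Q14.KS (EP am fs fs_pos fs_neg fs_small fs_large fs_cont fs_fourier int_am)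

/-- the nonnegative frequencies -/
theorem psn_pos {p q τ s₀ : ℝ} (hτ : 0 < τ) {ξ : ℝ} (hξ : 1 ≤ ξ) :
    ‖∫ s in (s₀ - 1 / 20)..(s₀ + 1 / 20), (am 20 p q s₀ s : ℂ) * EP τ (2 * Real.pi * ξ) s‖ ≤
      2700 * (|p| + |q|) * Real.exp 2 * Real.exp (-(2 * s₀)) * (1 / ξ ^ 2) := by
  have hξ0 : 0 < ξ := by linarith
  have hB : 0 < ξ * Real.exp (s₀ - 1) := mul_pos hξ0 (Real.exp_pos _)
  have hpi : 3 < Real.pi := Real.pi_gt_three
  have h1 : ∀ s, 0 < 2 * Real.pi * ξ * Real.exp s := fun s => by positivity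
  have h2 := int_am (p := p) (q := q) (τ := τ) (κ := 2 * Real.pi * ξ) (s₀ := s₀) (β := 20)
    (by norm_num) le_rfl hB (fun s hs => by
      have h4 : Real.exp (s₀ - 1) ≤ Real.exp s := Real.exp_le_exp.2 hs
      rw [abs_of_pos (by linarith [h1 s])]
      have h5 : ξ * Real.exp (s₀ - 1) ≤ ξ * Real.exp s := by gcongr
      have h6 : 0 < ξ * Real.exp s := mul_pos hξ0 (Real.exp_pos _)
      nlinarith) (fun s hs => by
      rw [abs_of_pos (h1 s), abs_of_pos (by linarith [h1 s])]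
      linarith [h1 s])
  refine h2.trans (le_of_eq ?_)
  have e1 : (ξ * Real.exp (s₀ - 1)) ^ 2 = ξ ^ 2 * Real.exp (2 * s₀ - 2) := by
    rw [mul_pow, ← Real.exp_nat_mul]
    congr 2
    push_cast
    ring
  have e2 : Real.exp 2 * Real.exp (-(2 * s₀)) = (Real.exp (2 * s₀ - 2))⁻¹ := by
    rw [← Real.exp_add, ← Real.exp_neg]
    congr 1
    ring
  rw [e1, mul_assoc (2700 * (|p| + |q|)), e2]
  have := (Real.exp_pos (2 * s₀ - 2)).ne'
  field_simp

/-- the large negative frequencies -/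
theorem psn_neg {p q τ s₀ : ℝ} (hτ : 0 < τ) {ξ : ℝ} (hξ0 : 0 < ξ) (hξ : τ ≤ ξ * Real.exp s₀) :
    ‖∫ s in (s₀ - 1 / 20)..(s₀ + 1 / 20), (am 20 p q s₀ s : ℂ) * EP τ (2 * Real.pi * (-ξ)) s‖ ≤
      2700 * (|p| + |q|) * Real.exp 2 * Real.exp (-(2 * s₀)) * (1 / ξ ^ 2) := by
  have hB : 0 < ξ * Real.exp (s₀ - 1) := mul_pos hξ0 (Real.exp_pos _)
  have hpi : 3.14 < Real.pi := Real.pi_gt_d2
  have he : Real.exp 1 < 2.7182818286 := Real.exp_one_lt_d9
  -- `τ ≤ e ξ e^s`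
  have h0 : ∀ s, s₀ - 1 ≤ s → τ ≤ Real.exp 1 * (ξ * Real.exp s) := by
    intro s hs
    refine hξ.trans ?_
    have : Real.exp s₀ ≤ Real.exp 1 * Real.exp s := by
      rw [← Real.exp_add]
      exact Real.exp_le_exp.2 (by linarith)
    calc ξ * Real.exp s₀ ≤ ξ * (Real.exp 1 * Real.exp s) := by gcongr
      _ = _ := by ring
  have h1 : ∀ s, s₀ - 1 ≤ s → 2 * Real.pi * (ξ * Real.exp s) - Real.exp 1 * (ξ * Real.exp s) ≤
      |τ + 2 * Real.pi * (-ξ) * Real.exp s| := by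
    intro s hs
    have h3 := h0 s hs
    refine le_trans ?_ (neg_le_abs _)
    linarith
  have h2 := int_am (p := p) (q := q) (τ := τ) (κ := 2 * Real.pi * (-ξ)) (s₀ := s₀) (β := 20)
    (by norm_num) le_rfl hB (fun s hs => by
      refine le_trans ?_ (h1 s hs)
      have h4 : Real.exp (s₀ - 1) ≤ Real.exp s := Real.exp_le_exp.2 hs
      have h5 : ξ * Real.exp (s₀ - 1) ≤ ξ * Real.exp s := by gcongr
      have h6 : 0 < ξ * Real.exp s := mul_pos hξ0 (Real.exp_pos _)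
      nlinarith) (fun s hs => by
      have h3 := h1 s hs
      have h6 : 0 < ξ * Real.exp s := mul_pos hξ0 (Real.exp_pos _)
      have h7 : |2 * Real.pi * (-ξ) * Real.exp s| = 2 * Real.pi * (ξ * Real.exp s) := by
        rw [abs_of_nonpos]
        · ring
        · have : 0 < 2 * Real.pi * (ξ * Real.exp s) := by positivity
          linarith
      rw [h7]
      nlinarith)
  refine h2.trans (le_of_eq ?_)
  have e1 : (ξ * Real.exp (s₀ - 1)) ^ 2 = ξ ^ 2 * Real.exp (2 * s₀ - 2) := by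
    rw [mul_pow, ← Real.exp_nat_mul]
    congr 2
    push_cast
    ring
  have e2 : Real.exp 2 * Real.exp (-(2 * s₀)) = (Real.exp (2 * s₀ - 2))⁻¹ := by
    rw [← Real.exp_add, ← Real.exp_neg]
    congr 1
    ring
  rw [e1, mul_assoc (2700 * (|p| + |q|)), e2]
  have := (Real.exp_pos (2 * s₀ - 2)).ne'
  field_simp

open FourierTransform in
/-- Poisson's formula with the main terms kept -/
theorem psn_gen : ∃ C : ℝ, 0 ≤ C ∧ ∀ (p q τ T : ℝ) (d : ℕ), 1 ≤ T → T ≤ τ → τ ≤ 2 * T →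
    ‖(∑ n ∈ Icc 1 ⌊Real.exp ((d : ℝ) / 20 + 1 / 20)⌋₊,
      (((p + q * (Real.log n - (d : ℝ) / 20)) * w (20 * (Real.log n - (d : ℝ) / 20)) / n : ℝ) : ℂ) *
        er (-τ) (Real.log n)) - ∑ j ∈ Icc 1 ⌊2 * T * Real.exp (-((d : ℝ) / 20))⌋₊,
        ∫ s in ((d : ℝ) / 20 - 1 / 20)..((d : ℝ) / 20 + 1 / 20),
          (am 20 p q ((d : ℝ) / 20) s : ℂ) * EP τ (2 * Real.pi * (-(j : ℝ))) s‖ ≤
      C * (|p| + |q|) * (1 / T ^ 2 + Real.exp (-(2 * ((d : ℝ) / 20)))) := by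
  classical
  obtain ⟨Z, hZ⟩ : ∃ Z : ℝ, Z = (∑' n : ℤ, 1 / (n : ℝ) ^ 2 : ℝ) := ⟨_, rfl⟩
  have hZs : Summable fun n : ℤ => 1 / (n : ℝ) ^ 2 := Real.summable_one_div_int_pow.2 one_lt_two
  have hZ0 : 0 ≤ Z := by rw [hZ]; exact tsum_nonneg fun n => by positivity
  refine ⟨2700 * (1 + Real.exp 2 * Z), by positivity, ?_⟩
  intro p q τ T d hT hTτ hτT
  obtain ⟨s₀, hs₀⟩ : ∃ s₀ : ℝ, s₀ = (d : ℝ) / 20 := ⟨_, rfl⟩
  rw [← hs₀]
  have hτ0 : 0 < τ := by linarith
  have hpq : 0 ≤ |p| + |q| := by positivity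
  have h120 : (1 : ℝ) ≤ 20 := by norm_num
  -- the kept frequencies
  obtain ⟨N, hN⟩ : ∃ N : ℕ, N = ⌊2 * T * Real.exp (-s₀)⌋₊ := ⟨_, rfl⟩
  rw [← hN]
  set Q : Finset ℤ := (Icc 1 N).image (fun j : ℕ => -(j : ℤ)) with hQ
  obtain ⟨F, hF⟩ : ∃ F : ℤ → ℂ, F = fun n : ℤ => 𝓕 (fs 20 p q s₀ τ) n := ⟨_, rfl⟩
  have hF' : ∀ n : ℤ, F n = ∫ s in (s₀ - 1 / 20)..(s₀ + 1 / 20),
      (am 20 p q s₀ s : ℂ) * EP τ (2 * Real.pi * n) s := by
    intro n
    rw [hF]
    exact fs_fourier h120 _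
  -- the bound
  obtain ⟨G, hG⟩ : ∃ G : ℤ → ℝ, G = fun n : ℤ => (if n = 0 then 2700 * (|p| + |q|) / T ^ 2 else 0) +
    2700 * (|p| + |q|) * Real.exp 2 * Real.exp (-(2 * s₀)) * (1 / (n : ℝ) ^ 2) := ⟨_, rfl⟩
  have hGa : HasSum (fun n : ℤ => if n = 0 then 2700 * (|p| + |q|) / T ^ 2 else 0)
      (2700 * (|p| + |q|) / T ^ 2) := hasSum_ite_eq 0 _
  have hGb : HasSum (fun n : ℤ => 2700 * (|p| + |q|) * Real.exp 2 * Real.exp (-(2 * s₀)) *
      (1 / (n : ℝ) ^ 2)) (2700 * (|p| + |q|) * Real.exp 2 * Real.exp (-(2 * s₀)) * Z) := by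
    rw [hZ]
    exact hZs.hasSum.mul_left _
  have hGs : HasSum G (2700 * (|p| + |q|) / T ^ 2 +
      2700 * (|p| + |q|) * Real.exp 2 * Real.exp (-(2 * s₀)) * Z) := by
    rw [hG]
    exact hGa.add hGb
  have hGn : ∀ n, 0 ≤ G n := by
    intro n
    rw [hG]
    simp only
    split_ifs <;> positivity
  obtain ⟨F1, hF1⟩ : ∃ F1 : ℤ → ℂ, F1 = fun n : ℤ => if n ∈ Q then 0 else F n := ⟨_, rfl⟩
  obtain ⟨F2, hF2⟩ : ∃ F2 : ℤ → ℂ, F2 = fun n : ℤ => if n ∈ Q then F n else 0 := ⟨_, rfl⟩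
  have hF1G : ∀ n : ℤ, ‖F1 n‖ ≤ G n := by
    intro n
    rw [hF1]
    simp only
    split_ifs with hn
    · rw [norm_zero]
      exact hGn n
    · rw [hF', hG]
      simp only
      rcases lt_trichotomy n 0 with hneg | h0 | hpos
      · -- negative, not kept
        rw [if_neg hneg.ne, zero_add]
        obtain ⟨j, hj⟩ : ∃ j : ℕ, n = -(j : ℤ) := ⟨n.natAbs, by omega⟩
        have hj1 : 1 ≤ j := by omega
        have hjN : N < j := by
          by_contra hcon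
          push Not at hcon
          apply hn
          rw [hQ, mem_image]
          exact ⟨j, mem_Icc.2 ⟨hj1, hcon⟩, hj.symm⟩
        have hjx : 2 * T * Real.exp (-s₀) < j := by
          rw [hN] at hjN
          exact Nat.lt_of_floor_lt hjN
        have hj0 : (0 : ℝ) < j := by exact_mod_cast hj1
        have hle : τ ≤ (j : ℝ) * Real.exp s₀ := by
          have h1 : 2 * T = 2 * T * Real.exp (-s₀) * Real.exp s₀ := by
            rw [mul_assoc, ← Real.exp_add]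
            simp
          have h2 : 2 * T * Real.exp (-s₀) * Real.exp s₀ ≤ (j : ℝ) * Real.exp s₀ := by gcongr
          linarith
        have h3 := psn_neg (p := p) (q := q) (s₀ := s₀) hτ0 hj0 hle
        have e1 : (n : ℝ) = -(j : ℝ) := by rw [hj]; push_cast; ring
        rw [e1]
        refine h3.trans (le_of_eq ?_)
        rw [neg_sq]
      · rw [if_pos h0, h0]
        have h1 := int_am (p := p) (q := q) (τ := τ) (κ := 2 * Real.pi * ((0 : ℤ) : ℝ)) (s₀ := s₀)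
          (B := T) (β := 20) h120 le_rfl (by linarith) (fun s _ => by
            rw [Int.cast_zero, mul_zero, zero_mul, add_zero, abs_of_pos hτ0]
            exact hTτ) (fun s _ => by
            rw [Int.cast_zero, mul_zero, zero_mul, add_zero, abs_zero]
            positivity)
        refine h1.trans ?_
        rw [Int.cast_zero]
        have : 2700 * (|p| + |q|) * Real.exp 2 * Real.exp (-(2 * s₀)) * (1 / (0 : ℝ) ^ 2) = 0 := by simp
        rw [this, add_zero]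
      · rw [if_neg hpos.ne', zero_add]
        have hξ : (1 : ℝ) ≤ (n : ℝ) := by exact_mod_cast hpos
        exact psn_pos hτ0 hξ
  have hF1s : Summable F1 := Summable.of_norm_bounded hGs.summable hF1G
  have hF2s : HasSum F2 (∑ n ∈ Q, F2 n) := hasSum_sum_of_ne_finset_zero fun n hn => by
    rw [hF2]
    exact if_neg hn
  have hF12 : ∀ n, F n = F1 n + F2 n := by
    intro n
    rw [hF1, hF2]
    simp only
    split_ifs <;> simp
  have hFs : Summable F := by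
    have : F = fun n => F1 n + F2 n := funext hF12
    rw [this]
    exact hF1s.add hF2s.summable
  have hO : (fs 20 p q s₀ τ) =O[Filter.cocompact ℝ] fun x : ℝ => |x| ^ (-2 : ℝ) := by
    have h1 : (fs 20 p q s₀ τ) =ᶠ[Filter.cocompact ℝ] fun _ => 0 := by
      refine Filter.mem_cocompact.2 ⟨Set.Icc 0 (Real.exp (s₀ + 1 / 20)), isCompact_Icc, ?_⟩
      intro x hx
      rw [Set.mem_compl_iff, Set.mem_Icc, not_and_or, not_le, not_le] at hx
      rcases hx with h | h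
      · exact fs_neg h.le
      · exact fs_large h120 h.le
    exact (Asymptotics.isBigO_zero _ _).congr' h1.symm (Filter.EventuallyEq.refl _ _)
  have hP := Real.tsum_eq_tsum_fourier_of_rpow_decay_of_summable
    (fs_cont (p := p) (q := q) (s₀ := s₀) (τ := τ) h120) one_lt_two hO (by rw [hF] at hFs; exact hFs) 0
  have hS : ∑ n ∈ Icc 1 ⌊Real.exp (s₀ + 1 / 20)⌋₊,
      (((p + q * (Real.log n - s₀)) * w (20 * (Real.log n - s₀)) / n : ℝ) : ℂ) * er (-τ) (Real.log n) =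
      ∑' n : ℤ, fs 20 p q s₀ τ (0 + n) := by
    have h1 : ∑' n : ℤ, fs 20 p q s₀ τ (0 + n) =
        ∑ n ∈ (Icc 1 ⌊Real.exp (s₀ + 1 / 20)⌋₊).map Nat.castEmbedding, fs 20 p q s₀ τ (0 + (n : ℤ)) := by
      refine tsum_eq_sum fun n hn => ?_
      rw [zero_add]
      by_cases h0 : n ≤ 0
      · exact fs_neg (by exact_mod_cast h0)
      · push Not at h0
        refine fs_large h120 ?_
        by_contra hcon
        push Not at hcon
        refine hn ?_
        rw [mem_map]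
        refine ⟨n.toNat, ?_, by simp [Int.toNat_of_nonneg h0.le]⟩
        rw [mem_Icc]
        have e : ((n.toNat : ℕ) : ℝ) = (n : ℝ) := by
          have : ((n.toNat : ℕ) : ℤ) = n := Int.toNat_of_nonneg h0.le
          exact_mod_cast this
        refine ⟨by omega, Nat.le_floor ?_⟩
        rw [e]
        exact hcon.le
    rw [h1, sum_map]
    refine sum_congr rfl fun n hn => ?_
    have hn1 : 1 ≤ n := (mem_Icc.1 hn).1
    have hn0 : (0 : ℝ) < n := by exact_mod_cast hn1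
    have e : (0 + ((Nat.castEmbedding n : ℤ) : ℝ)) = (n : ℝ) := by simp
    rw [e, fs_pos hn0]
    rfl
  rw [hS, hP]
  have hfo : ∀ n : ℤ, 𝓕 (fs 20 p q s₀ τ) n * fourier n ((0 : ℝ) : UnitAddCircle) = F n := by
    intro n
    have : fourier n ((0 : ℝ) : UnitAddCircle) = 1 := by simp
    rw [this, mul_one, hF]
  simp only [hfo]
  have hkeep : ∑ n ∈ Q, F2 n = ∑ j ∈ Icc 1 N,
      ∫ s in (s₀ - 1 / 20)..(s₀ + 1 / 20), (am 20 p q s₀ s : ℂ) * EP τ (2 * Real.pi * (-(j : ℝ))) s := by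
    have h1 : ∑ n ∈ Q, F2 n = ∑ n ∈ Q, F n := by
      refine sum_congr rfl fun n hn => ?_
      rw [hF2]
      exact if_pos hn
    rw [h1, hQ, sum_image]
    · refine sum_congr rfl fun j _ => ?_
      rw [hF']
      push_cast
      rfl
    · intro i _ j _ hij
      simp only at hij
      omega
  have hsplit : ∑' n : ℤ, F n = ∑' n : ℤ, F1 n + ∑ n ∈ Q, F2 n := by
    rw [← hF2s.tsum_eq, ← hF1s.tsum_add hF2s.summable]
    exact tsum_congr hF12
  rw [hsplit, hkeep, add_sub_cancel_right]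
  refine (tsum_of_norm_bounded hGs hF1G).trans ?_
  have e1 : 0 ≤ Real.exp (-(2 * s₀)) := (Real.exp_pos _).le
  have e2 : 2700 * (1 + Real.exp 2 * Z) * (|p| + |q|) * (1 / T ^ 2 + Real.exp (-(2 * s₀))) =
      2700 * (|p| + |q|) / T ^ 2 + 2700 * (|p| + |q|) * Real.exp 2 * Real.exp (-(2 * s₀)) * Z +
      (2700 * (|p| + |q|) * Real.exp (-(2 * s₀)) +
        2700 * (|p| + |q|) * (Real.exp 2 * Z) * (1 / T ^ 2)) := by ring
  rw [e2]
  have e3 : 0 ≤ 2700 * (|p| + |q|) * Real.exp (-(2 * s₀)) +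
      2700 * (|p| + |q|) * (Real.exp 2 * Z) * (1 / T ^ 2) := by
    positivity
  linarith

theorem psn : S_PSN := by
  obtain ⟨C, hC0, hC⟩ := psn_gen
  refine ⟨1 + C * 101, by linarith, ?_⟩
  intro z t d T k ht hT hTk hkT hd
  have hd0 : (0 : ℝ) ≤ d := Nat.cast_nonneg d
  set p : ℝ := if t = 1 then 1 else (d : ℝ) / 20 with hp
  set q : ℝ := if t = 1 then 0 else 1 with hq
  have hpq : |p| + |q| ≤ 1 + d := by
    rw [hp, hq]
    split_ifs
    · rw [abs_one, abs_zero]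
      linarith
    · rw [abs_one, abs_of_nonneg (by positivity)]
      linarith
  have h1 := hC p q k T d hT hTk hkT
  -- the factor
  have e1 : PF z t d k = ∑ n ∈ Icc 1 ⌊Real.exp ((d : ℝ) / 20 + 1 / 20)⌋₊,
      (((p + q * (Real.log n - (d : ℝ) / 20)) * w (20 * (Real.log n - (d : ℝ) / 20)) / n : ℝ) : ℂ) *
        er (-(k : ℝ)) (Real.log n) := by
    unfold PF DP sp
    have e2 : ((d : ℝ) + 1) / 20 = (d : ℝ) / 20 + 1 / 20 := by ring
    rw [e2]
    refine sum_congr rfl fun n _ => ?_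
    have e3 : ch k (Real.log n) = er (-(k : ℝ)) (Real.log n) := by
      unfold ch er
      congr 1
      push_cast
      ring
    have e4 : cf z t d n = (p + q * (Real.log n - (d : ℝ) / 20)) *
        w (20 * (Real.log n - (d : ℝ) / 20)) / n := by
      unfold cf
      rw [if_neg ht]
      have e5 : 20 * (Real.log n - (d : ℝ) / 20) = 20 * Real.log n - d := by ring
      rw [e5]
      congr 2
      rw [hp, hq]
      split_ifs
      · ring
      · ring
    rw [e3, ← e4]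
  have e6 : ∑ j ∈ Icc 1 ⌊2 * T * Real.exp (-((d : ℝ) / 20))⌋₊,
      ∫ s in ((d : ℝ) / 20 - 1 / 20)..((d : ℝ) / 20 + 1 / 20),
        ((am20 p q ((d : ℝ) / 20) s : ℝ) : ℂ) * ep k (-(2 * Real.pi * j)) s =
      ∑ j ∈ Icc 1 ⌊2 * T * Real.exp (-((d : ℝ) / 20))⌋₊,
        ∫ s in ((d : ℝ) / 20 - 1 / 20)..((d : ℝ) / 20 + 1 / 20),
          (am 20 p q ((d : ℝ) / 20) s : ℂ) * EP k (2 * Real.pi * (-(j : ℝ))) s := by
    refine sum_congr rfl fun j _ => ?_
    have e7 : -(2 * Real.pi * (j : ℝ)) = 2 * Real.pi * (-(j : ℝ)) := by ring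
    rw [e7]
    rfl
  rw [e6, e1]
  refine h1.trans ?_
  have e8 : Real.exp (-(2 * ((d : ℝ) / 20))) = Real.exp (-((d : ℝ) / 10)) := by
    congr 1
    ring
  rw [e8]
  have hT0 : 0 < T := by linarith
  have e9 : 1 / T ^ 2 ≤ 100 * Real.exp (-((d : ℝ) / 10)) := by
    have h2 : Real.exp ((d : ℝ) / 10) ≤ 100 * T ^ 2 := by
      have h3 : Real.exp ((d : ℝ) / 10) = Real.exp ((d : ℝ) / 20) ^ 2 := by
        rw [← Real.exp_nat_mul]
        congr 1
        push_cast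
        ring
      rw [h3]
      calc Real.exp ((d : ℝ) / 20) ^ 2 ≤ (10 * T) ^ 2 := by gcongr
        _ = _ := by ring
    rw [Real.exp_neg, div_le_iff₀ (by positivity)]
    have h4 : 0 < Real.exp ((d : ℝ) / 10) := Real.exp_pos _
    rw [mul_right_comm, ← div_eq_mul_inv, le_div_iff₀ h4, one_mul]
    exact h2
  have hexp : 0 ≤ Real.exp (-((d : ℝ) / 10)) := (Real.exp_pos _).le
  calc C * (|p| + |q|) * (1 / T ^ 2 + Real.exp (-((d : ℝ) / 10)))
      ≤ C * (1 + d) * (100 * Real.exp (-((d : ℝ) / 10)) + Real.exp (-((d : ℝ) / 10))) := by gcongr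
    _ = C * 101 * (1 + d) * Real.exp (-((d : ℝ) / 10)) := by ring
    _ ≤ (1 + C * 101) * (1 + d) * Real.exp (-((d : ℝ) / 10)) := by
        gcongr
        linarith

end Pool.Agent.Q38.KT
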